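import Mathlib
import Pool.Agent.H240R3.WT.Stmts

/-!
Task C of the weak types project: the quadratic form of `T n`, expanded.
-/

namespace Pool.Agent.H661R3.WT

open Pool.Agent.H240R3.WT Finset

theorem e0_1 : coreEC 0 1 = EC.red := rfl
theorem e0_2 : coreEC 0 2 = EC.blue := rfl
theorem e0_3 : coreEC 0 3 = EC.blue := rfl
theorem e0_4 : coreEC 0 4 = EC.blue := rfl
theorem e0_5 : coreEC 0 5 = EC.blue := rfl
theorem e0_6 : coreEC 0 6 = EC.green := rfl
theorem e0_7 : coreEC 0 7 = EC.green := rfl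
theorem e0_8 : coreEC 0 8 = EC.green := rfl
theorem e0_9 : coreEC 0 9 = EC.green := rfl
theorem e0_10 : coreEC 0 10 = EC.green := rfl
theorem e1_0 : coreEC 1 0 = EC.red := rfl
theorem e1_2 : coreEC 1 2 = EC.red := rfl
theorem e1_3 : coreEC 1 3 = EC.blue := rfl
theorem e1_4 : coreEC 1 4 = EC.green := rfl
theorem e1_5 : coreEC 1 5 = EC.blue := rfl
theorem e1_6 : coreEC 1 6 = EC.green := rfl
theorem e1_7 : coreEC 1 7 = EC.green := rfl
theorem e1_8 : coreEC 1 8 = EC.green := rfl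
theorem e1_9 : coreEC 1 9 = EC.green := rfl
theorem e1_10 : coreEC 1 10 = EC.green := rfl
theorem e2_0 : coreEC 2 0 = EC.blue := rfl
theorem e2_1 : coreEC 2 1 = EC.red := rfl
theorem e2_3 : coreEC 2 3 = EC.green := rfl
theorem e2_4 : coreEC 2 4 = EC.green := rfl
theorem e2_5 : coreEC 2 5 = EC.blue := rfl
theorem e2_6 : coreEC 2 6 = EC.blue := rfl
theorem e2_7 : coreEC 2 7 = EC.green := rfl
theorem e2_8 : coreEC 2 8 = EC.green := rfl
theorem e2_9 : coreEC 2 9 = EC.green := rfl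
theorem e2_10 : coreEC 2 10 = EC.green := rfl
theorem e3_0 : coreEC 3 0 = EC.blue := rfl
theorem e3_1 : coreEC 3 1 = EC.blue := rfl
theorem e3_2 : coreEC 3 2 = EC.green := rfl
theorem e3_4 : coreEC 3 4 = EC.red := rfl
theorem e3_5 : coreEC 3 5 = EC.green := rfl
theorem e3_6 : coreEC 3 6 = EC.green := rfl
theorem e3_7 : coreEC 3 7 = EC.green := rfl
theorem e3_8 : coreEC 3 8 = EC.green := rfl
theorem e3_9 : coreEC 3 9 = EC.green := rfl
theorem e3_10 : coreEC 3 10 = EC.green := rfl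
theorem e4_0 : coreEC 4 0 = EC.blue := rfl
theorem e4_1 : coreEC 4 1 = EC.green := rfl
theorem e4_2 : coreEC 4 2 = EC.green := rfl
theorem e4_3 : coreEC 4 3 = EC.red := rfl
theorem e4_5 : coreEC 4 5 = EC.blue := rfl
theorem e4_6 : coreEC 4 6 = EC.green := rfl
theorem e4_7 : coreEC 4 7 = EC.green := rfl
theorem e4_8 : coreEC 4 8 = EC.green := rfl
theorem e4_9 : coreEC 4 9 = EC.green := rfl
theorem e4_10 : coreEC 4 10 = EC.green := rfl
theorem e5_0 : coreEC 5 0 = EC.blue := rfl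
theorem e5_1 : coreEC 5 1 = EC.blue := rfl
theorem e5_2 : coreEC 5 2 = EC.blue := rfl
theorem e5_3 : coreEC 5 3 = EC.green := rfl
theorem e5_4 : coreEC 5 4 = EC.blue := rfl
theorem e5_6 : coreEC 5 6 = EC.green := rfl
theorem e5_7 : coreEC 5 7 = EC.green := rfl
theorem e5_8 : coreEC 5 8 = EC.green := rfl
theorem e5_9 : coreEC 5 9 = EC.green := rfl
theorem e5_10 : coreEC 5 10 = EC.green := rfl
theorem e6_0 : coreEC 6 0 = EC.green := rfl
theorem e6_1 : coreEC 6 1 = EC.green := rfl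
theorem e6_2 : coreEC 6 2 = EC.blue := rfl
theorem e6_3 : coreEC 6 3 = EC.green := rfl
theorem e6_4 : coreEC 6 4 = EC.green := rfl
theorem e6_5 : coreEC 6 5 = EC.green := rfl
theorem e6_7 : coreEC 6 7 = EC.blue := rfl
theorem e6_8 : coreEC 6 8 = EC.green := rfl
theorem e6_9 : coreEC 6 9 = EC.green := rfl
theorem e6_10 : coreEC 6 10 = EC.green := rfl
theorem e7_0 : coreEC 7 0 = EC.green := rfl
theorem e7_1 : coreEC 7 1 = EC.green := rfl
theorem e7_2 : coreEC 7 2 = EC.green := rfl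
theorem e7_3 : coreEC 7 3 = EC.green := rfl
theorem e7_4 : coreEC 7 4 = EC.green := rfl
theorem e7_5 : coreEC 7 5 = EC.green := rfl
theorem e7_6 : coreEC 7 6 = EC.blue := rfl
theorem e7_8 : coreEC 7 8 = EC.blue := rfl
theorem e7_9 : coreEC 7 9 = EC.green := rfl
theorem e7_10 : coreEC 7 10 = EC.green := rfl
theorem e8_0 : coreEC 8 0 = EC.green := rfl
theorem e8_1 : coreEC 8 1 = EC.green := rfl
theorem e8_2 : coreEC 8 2 = EC.green := rfl
theorem e8_3 : coreEC 8 3 = EC.green := rfl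
theorem e8_4 : coreEC 8 4 = EC.green := rfl
theorem e8_5 : coreEC 8 5 = EC.green := rfl
theorem e8_6 : coreEC 8 6 = EC.green := rfl
theorem e8_7 : coreEC 8 7 = EC.blue := rfl
theorem e8_9 : coreEC 8 9 = EC.blue := rfl
theorem e8_10 : coreEC 8 10 = EC.green := rfl
theorem e9_0 : coreEC 9 0 = EC.green := rfl
theorem e9_1 : coreEC 9 1 = EC.green := rfl
theorem e9_2 : coreEC 9 2 = EC.green := rfl
theorem e9_3 : coreEC 9 3 = EC.green := rfl
theorem e9_4 : coreEC 9 4 = EC.green := rfl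
theorem e9_5 : coreEC 9 5 = EC.green := rfl
theorem e9_6 : coreEC 9 6 = EC.green := rfl
theorem e9_7 : coreEC 9 7 = EC.green := rfl
theorem e9_8 : coreEC 9 8 = EC.blue := rfl
theorem e9_10 : coreEC 9 10 = EC.blue := rfl
theorem e10_0 : coreEC 10 0 = EC.green := rfl
theorem e10_1 : coreEC 10 1 = EC.green := rfl
theorem e10_2 : coreEC 10 2 = EC.green := rfl
theorem e10_3 : coreEC 10 3 = EC.green := rfl
theorem e10_4 : coreEC 10 4 = EC.green := rfl
theorem e10_5 : coreEC 10 5 = EC.green := rfl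
theorem e10_6 : coreEC 10 6 = EC.green := rfl
theorem e10_7 : coreEC 10 7 = EC.green := rfl
theorem e10_8 : coreEC 10 8 = EC.green := rfl
theorem e10_9 : coreEC 10 9 = EC.blue := rfl

theorem core_sum (c : ℕ → ℝ) :
    ∑ i ∈ range 11, ∑ j ∈ range 11, c i * c j *
      (if i = j then (if i = 0 then (53/120 : ℝ) else 0) else wE p0 (coreEC i j)) =
    (c 0 + c 1 + c 2 + c 3 + c 4 + c 5 + c 6 + c 7 + c 8 + c 9 + c 10)^2 -
    (67/120 * c 0^2 + c 1^2 + c 2^2 + c 3^2 + c 4^2 + c 5^2 + c 6^2 + c 7^2 + c 8^2 + c 9^2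
      + c 10^2
     + 2 * (67/120) * (c 0 * c 1 + c 1 * c 2 + c 3 * c 4)
     + 2 * (53/120) * (c 0 * c 2 + c 0 * c 3 + c 0 * c 4 + c 0 * c 5 + c 1 * c 3 + c 1 * c 5
        + c 2 * c 5 + c 4 * c 5 + c 2 * c 6 + c 6 * c 7 + c 7 * c 8 + c 8 * c 9 + c 9 * c 10)) := by
  have hr : wE p0 EC.red = 53/120 := rfl
  have hb : wE p0 EC.blue = 67/120 := by
    show 1 - p0 = 67/120
    unfold p0; norm_num
  have hg : wE p0 EC.green = 1 := rfl
  simp only [Finset.sum_range_succ, Finset.sum_range_zero, 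
    e0_1, e0_2, e0_3, e0_4, e0_5, e0_6, e0_7, e0_8, e0_9, e0_10, e1_0, e1_2, e1_3, e1_4, e1_5, e1_6, e1_7, e1_8, e1_9, e1_10, e2_0, e2_1, e2_3, e2_4, e2_5, e2_6, e2_7, e2_8, e2_9, e2_10, e3_0, e3_1, e3_2, e3_4, e3_5, e3_6, e3_7, e3_8, e3_9, e3_10, e4_0, e4_1, e4_2, e4_3, e4_5, e4_6, e4_7, e4_8, e4_9, e4_10, e5_0, e5_1, e5_2, e5_3, e5_4, e5_6, e5_7, e5_8, e5_9, e5_10, e6_0, e6_1, e6_2, e6_3, e6_4, e6_5, e6_7, e6_8, e6_9, e6_10, e7_0, e7_1, e7_2, e7_3, e7_4, e7_5, e7_6, e7_8, e7_9, e7_10, e8_0, e8_1, e8_2, e8_3, e8_4, e8_5, e8_6, e8_7, e8_9, e8_10, e9_0, e9_1, e9_2, e9_3, e9_4, e9_5, e9_6, e9_7, e9_8, e9_10, e10_0, e10_1, e10_2, e10_3, e10_4, e10_5, e10_6, e10_7, e10_8, e10_9,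
    hr, hb, hg]
  norm_num
  ring

theorem chain_sum (n : ℕ) (t : ℕ → ℝ) (ht : ∀ k, n ≤ k → t k = 0) :
    ∑ k ∈ range n, ∑ l ∈ range n, t k * t l *
      (if k = l then (0 : ℝ) else wE p0 (chainEC k l)) =
    (53/120) * (∑ k ∈ range n, t k)^2 - (53/120) * ∑ k ∈ range n, t k ^ 2
      + 2 * (14/120) * ∑ k ∈ range n, t k * t (k+1) := by
  have hr : wE p0 EC.red = 53/120 := rfl
  have hb : wE p0 EC.blue = 67/120 := by
    show 1 - p0 = 67/120
    unfold p0; norm_num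
  have hpt : ∀ k l : ℕ, t k * t l * (if k = l then (0 : ℝ) else wE p0 (chainEC k l)) =
      (53/120) * (t k * t l) - (if k = l then (53/120) * (t k * t l) else 0)
        + (if k + 1 = l then (14/120) * (t k * t l) else 0)
        + (if l + 1 = k then (14/120) * (t k * t l) else 0) := by
    intro k l
    unfold chainEC
    by_cases h1 : k = l
    · have h2 : ¬ (k + 1 = l) := by omega
      have h3 : ¬ (l + 1 = k) := by omega
      rw [if_pos h1, if_pos h1, if_neg h2, if_neg h3]; ring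
    · by_cases h2 : k + 1 = l
      · have h3 : ¬ (l + 1 = k) := by omega
        rw [if_neg h1, if_neg h1, if_pos h2, if_neg h3, if_pos (Or.inl h2), hb]; ring
      · by_cases h3 : l + 1 = k
        · rw [if_neg h1, if_neg h1, if_neg h2, if_pos h3, if_pos (Or.inr h3), hb]; ring
        · rw [if_neg h1, if_neg h1, if_neg h2, if_neg h3, if_neg (by tauto), hr]; ring
  have hA : ∑ k ∈ range n, ∑ l ∈ range n, (53/120 : ℝ) * (t k * t l) =
      (53/120) * (∑ k ∈ range n, t k)^2 := by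
    rw [pow_two, Finset.sum_mul_sum, Finset.mul_sum]
    refine Finset.sum_congr rfl fun k _ => ?_
    rw [Finset.mul_sum]
  have hB : ∑ k ∈ range n, ∑ l ∈ range n, (if k = l then (53/120 : ℝ) * (t k * t l) else 0) =
      (53/120) * ∑ k ∈ range n, t k ^ 2 := by
    rw [Finset.mul_sum]
    refine Finset.sum_congr rfl fun k hk => ?_
    rw [Finset.sum_ite_eq, if_pos hk]; ring
  have hC : ∑ k ∈ range n, ∑ l ∈ range n, (if k + 1 = l then (14/120 : ℝ) * (t k * t l) else 0) =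
      (14/120) * ∑ k ∈ range n, t k * t (k+1) := by
    rw [Finset.mul_sum]
    refine Finset.sum_congr rfl fun k hk => ?_
    rw [Finset.sum_ite_eq]
    by_cases h : k + 1 ∈ range n
    · rw [if_pos h]
    · rw [if_neg h, ht (k+1) (by simpa using h)]; ring
  have hD : ∑ k ∈ range n, ∑ l ∈ range n, (if l + 1 = k then (14/120 : ℝ) * (t k * t l) else 0) =
      (14/120) * ∑ k ∈ range n, t k * t (k+1) := by
    rw [Finset.sum_comm, Finset.mul_sum]
    refine Finset.sum_congr rfl fun k hk => ?_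
    rw [Finset.sum_ite_eq]
    by_cases h : k + 1 ∈ range n
    · rw [if_pos h]; ring
    · rw [if_neg h, ht (k+1) (by simpa using h)]; ring
  simp only [hpt, Finset.sum_add_distrib, Finset.sum_sub_distrib]
  rw [hA, hB, hC, hD]; ring

theorem chain_sq (n : ℕ) (t : ℕ → ℝ) (ht : ∀ k, n ≤ k → t k = 0) :
    (49/120) * ∑ k ∈ range n, (t (k+1) - 2/7 * t k)^2 + (49/120) * t 0 ^ 2 =
    (53/120) * ∑ k ∈ range n, t k ^ 2 - 2 * (14/120) * ∑ k ∈ range n, t k * t (k+1) := by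
  have h1 : ∑ k ∈ range n, t (k+1) ^ 2 + t 0 ^ 2 = ∑ k ∈ range n, t k ^ 2 := by
    rw [← Finset.sum_range_succ' (fun k => t k ^ 2) n, Finset.sum_range_succ, ht n le_rfl]
    ring
  have h2 : ∑ k ∈ range n, (t (k+1) - 2/7 * t k)^2 =
      ∑ k ∈ range n, t (k+1) ^ 2 - (4/7) * ∑ k ∈ range n, t k * t (k+1)
        + (4/49) * ∑ k ∈ range n, t k ^ 2 := by
    rw [Finset.mul_sum, Finset.mul_sum, ← Finset.sum_sub_distrib, ← Finset.sum_add_distrib]
    refine Finset.sum_congr rfl fun k _ => ?_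
    ring
  rw [h2, ← h1]
  ring

theorem Wm_self (p : ℝ) (τ : WType) (u : τ.V) : Wm p τ u u = wV p (τ.vc u) := by
  unfold Wm; rw [if_pos rfl]

theorem Wm_ne (p : ℝ) (τ : WType) (u v : τ.V) (h : u ≠ v) : Wm p τ u v = wE p (τ.ec u v) := by
  unfold Wm; rw [if_neg h]

theorem W_core (n : ℕ) (i j : Fin 11) :
    Wm p0 (T n) (Sum.inl i : Fin 11 ⊕ Fin n) (Sum.inl j : Fin 11 ⊕ Fin n) =
      if (i : ℕ) = (j : ℕ) then (if (i : ℕ) = 0 then (53/120 : ℝ) else 0)
        else wE p0 (coreEC i j) := by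
  by_cases h : i = j
  · subst h
    rw [if_pos rfl]
    refine (Wm_self p0 (T n) (Sum.inl i : Fin 11 ⊕ Fin n)).trans ?_
    show wV p0 (if i = 0 then VC.red else VC.white) = _
    by_cases h0 : i = 0
    · subst h0
      rfl
    · have h1 : ¬ ((i : ℕ) = 0) := fun h2 => h0 (Fin.ext h2)
      rw [if_neg h0, if_neg h1]
      rfl
  · have h1 : ¬ ((Sum.inl i : Fin 11 ⊕ Fin n) = Sum.inl j) := fun h2 => h (Sum.inl.inj h2)
    have h2 : ¬ ((i : ℕ) = (j : ℕ)) := fun h2 => h (Fin.ext h2)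
    rw [if_neg h2]
    exact Wm_ne p0 (T n) (Sum.inl i : Fin 11 ⊕ Fin n) (Sum.inl j : Fin 11 ⊕ Fin n) h1

theorem W_chain (n : ℕ) (k l : Fin n) :
    Wm p0 (T n) (Sum.inr k : Fin 11 ⊕ Fin n) (Sum.inr l : Fin 11 ⊕ Fin n) =
      if (k : ℕ) = (l : ℕ) then (0 : ℝ) else wE p0 (chainEC k l) := by
  by_cases h : k = l
  · subst h
    rw [if_pos rfl]
    exact Wm_self p0 (T n) (Sum.inr k : Fin 11 ⊕ Fin n)
  · have h1 : ¬ ((Sum.inr k : Fin 11 ⊕ Fin n) = Sum.inr l) := fun h2 => h (Sum.inr.inj h2)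
    have h2 : ¬ ((k : ℕ) = (l : ℕ)) := fun h2 => h (Fin.ext h2)
    rw [if_neg h2]
    exact Wm_ne p0 (T n) (Sum.inr k : Fin 11 ⊕ Fin n) (Sum.inr l : Fin 11 ⊕ Fin n) h1

theorem W_mix (n : ℕ) (i : Fin 11) (k : Fin n) :
    Wm p0 (T n) (Sum.inl i : Fin 11 ⊕ Fin n) (Sum.inr k : Fin 11 ⊕ Fin n) =
      wE p0 (mixEC i k) := by
  have h1 : ¬ ((Sum.inl i : Fin 11 ⊕ Fin n) = Sum.inr k) := by simp
  exact Wm_ne p0 (T n) (Sum.inl i : Fin 11 ⊕ Fin n) (Sum.inr k : Fin 11 ⊕ Fin n) h1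

theorem W_mix' (n : ℕ) (i : Fin 11) (k : Fin n) :
    Wm p0 (T n) (Sum.inr k : Fin 11 ⊕ Fin n) (Sum.inl i : Fin 11 ⊕ Fin n) =
      wE p0 (mixEC i k) := by
  have h1 : ¬ ((Sum.inr k : Fin 11 ⊕ Fin n) = Sum.inl i) := by simp
  exact Wm_ne p0 (T n) (Sum.inr k : Fin 11 ⊕ Fin n) (Sum.inl i : Fin 11 ⊕ Fin n) h1

theorem mix_one (n : ℕ) (t : ℕ → ℝ) (ht : ∀ k, n ≤ k → t k = 0) (w : ℕ → ℝ) (a b x : ℝ)
    (hw : ∀ k, w k = a + (if k = 0 then b else 0)) :
    ∑ k ∈ range n, x * t k * w k = x * (a * (∑ k ∈ range n, t k) + b * t 0) := by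
  have h1 : ∑ k ∈ range n, x * t k * w k = x * a * (∑ k ∈ range n, t k) +
      ∑ k ∈ range n, (if 0 = k then x * t k * b else 0) := by
    rw [Finset.mul_sum, ← Finset.sum_add_distrib]
    refine Finset.sum_congr rfl fun k _ => ?_
    rw [hw]
    by_cases h : k = 0
    · subst h; rw [if_pos rfl, if_pos rfl]; ring
    · rw [if_neg h, if_neg (Ne.symm h)]; ring
  rw [h1, Finset.sum_ite_eq]
  by_cases h : 0 ∈ range n
  · rw [if_pos h]; ring
  · rw [if_neg h, ht 0 (by simpa using h)]; ring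

theorem mix_sum (n : ℕ) (c t : ℕ → ℝ) (ht : ∀ k, n ≤ k → t k = 0) :
    ∑ i ∈ range 11, ∑ k ∈ range n, c i * t k * wE p0 (mixEC i k) =
      (c 0 * (53/120) + c 1 * (53/120) + c 2 * (67/120) + c 3 * (67/120) + c 4 * (67/120)
        + c 5 * (67/120) + c 6 + c 7 + c 8 + c 9 + c 10) * (∑ k ∈ range n, t k)
      + (14/120) * (c 1 - c 2) * t 0 := by
  have hr : wE p0 EC.red = 53/120 := rfl
  have hb : wE p0 EC.blue = 67/120 := by
    show 1 - p0 = 67/120
    unfold p0; norm_num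
  have hg : wE p0 EC.green = 1 := rfl
  have h0 : ∀ k, wE p0 (mixEC 0 k) = 53/120 + (if k = 0 then 0 else 0) := by
    intro k; rw [ite_self, add_zero]; exact hr
  have h1 : ∀ k, wE p0 (mixEC 1 k) = 53/120 + (if k = 0 then 14/120 else 0) := by
    intro k
    rcases k with _ | k
    · rw [if_pos rfl]; show wE p0 EC.blue = _; rw [hb]; norm_num
    · rw [if_neg (Nat.succ_ne_zero k), add_zero]; exact hr
  have h2 : ∀ k, wE p0 (mixEC 2 k) = 67/120 + (if k = 0 then -(14/120) else 0) := by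
    intro k
    rcases k with _ | k
    · rw [if_pos rfl]; show wE p0 EC.red = _; rw [hr]; norm_num
    · rw [if_neg (Nat.succ_ne_zero k), add_zero]; exact hb
  have h3 : ∀ k, wE p0 (mixEC 3 k) = 67/120 + (if k = 0 then 0 else 0) := by
    intro k; rw [ite_self, add_zero]; exact hb
  have h4 : ∀ k, wE p0 (mixEC 4 k) = 67/120 + (if k = 0 then 0 else 0) := by
    intro k; rw [ite_self, add_zero]; exact hb
  have h5 : ∀ k, wE p0 (mixEC 5 k) = 67/120 + (if k = 0 then 0 else 0) := by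
    intro k; rw [ite_self, add_zero]; exact hb
  have h6 : ∀ k, wE p0 (mixEC 6 k) = 1 + (if k = 0 then 0 else 0) := by
    intro k; rw [ite_self, add_zero]; exact hg
  have h7 : ∀ k, wE p0 (mixEC 7 k) = 1 + (if k = 0 then 0 else 0) := by
    intro k; rw [ite_self, add_zero]; exact hg
  have h8 : ∀ k, wE p0 (mixEC 8 k) = 1 + (if k = 0 then 0 else 0) := by
    intro k; rw [ite_self, add_zero]; exact hg
  have h9 : ∀ k, wE p0 (mixEC 9 k) = 1 + (if k = 0 then 0 else 0) := by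
    intro k; rw [ite_self, add_zero]; exact hg
  have h10 : ∀ k, wE p0 (mixEC 10 k) = 1 + (if k = 0 then 0 else 0) := by
    intro k; rw [ite_self, add_zero]; exact hg
  simp only [Finset.sum_range_succ (n := 10), Finset.sum_range_succ (n := 9),
    Finset.sum_range_succ (n := 8), Finset.sum_range_succ (n := 7), Finset.sum_range_succ (n := 6),
    Finset.sum_range_succ (n := 5), Finset.sum_range_succ (n := 4), Finset.sum_range_succ (n := 3),
    Finset.sum_range_succ (n := 2), Finset.sum_range_succ (n := 1), Finset.sum_range_succ (n := 0),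
    Finset.sum_range_zero]
  rw [mix_one n t ht _ _ _ _ h0, mix_one n t ht _ _ _ _ h1, mix_one n t ht _ _ _ _ h2,
    mix_one n t ht _ _ _ _ h3, mix_one n t ht _ _ _ _ h4, mix_one n t ht _ _ _ _ h5,
    mix_one n t ht _ _ _ _ h6, mix_one n t ht _ _ _ _ h7, mix_one n t ht _ _ _ _ h8,
    mix_one n t ht _ _ _ _ h9, mix_one n t ht _ _ _ _ h10]
  ring

theorem taskC : TaskC := by
  intro n z t htz ht hz
  set c : ℕ → ℝ := fun i => if h : i < 11 then z (Sum.inl ⟨i, h⟩) else 0 with hc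
  have hci : ∀ i : Fin 11, z (Sum.inl i) = c i := by
    intro i
    rw [hc]
    show _ = if h : (i : ℕ) < 11 then z (Sum.inl ⟨i, h⟩) else 0
    rw [dif_pos i.isLt]
  have hform : form p0 (T n) z =
      ∑ u : Fin 11 ⊕ Fin n, ∑ v : Fin 11 ⊕ Fin n, z u * z v * Wm p0 (T n) u v := rfl
  have h1 : ∑ i : Fin 11, ∑ j : Fin 11, z (Sum.inl i) * z (Sum.inl j) *
      Wm p0 (T n) (Sum.inl i : Fin 11 ⊕ Fin n) (Sum.inl j : Fin 11 ⊕ Fin n) =
      ∑ i ∈ range 11, ∑ j ∈ range 11, c i * c j *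
      (if i = j then (if i = 0 then (53/120 : ℝ) else 0) else wE p0 (coreEC i j)) := by
    rw [← Fin.sum_univ_eq_sum_range (fun i => ∑ j ∈ range 11, c i * c j *
      (if i = j then (if i = 0 then (53/120 : ℝ) else 0) else wE p0 (coreEC i j))) 11]
    refine Finset.sum_congr rfl fun i _ => ?_
    rw [← Fin.sum_univ_eq_sum_range (fun j => c i * c j *
      (if (i : ℕ) = j then (if (i : ℕ) = 0 then (53/120 : ℝ) else 0) else wE p0 (coreEC i j))) 11]
    refine Finset.sum_congr rfl fun j _ => ?_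
    rw [W_core, hci, hci]
  have h2 : ∑ i : Fin 11, ∑ k : Fin n, z (Sum.inl i) * z (Sum.inr k) *
      Wm p0 (T n) (Sum.inl i : Fin 11 ⊕ Fin n) (Sum.inr k : Fin 11 ⊕ Fin n) =
      ∑ i ∈ range 11, ∑ k ∈ range n, c i * t k * wE p0 (mixEC i k) := by
    rw [← Fin.sum_univ_eq_sum_range (fun i => ∑ k ∈ range n, c i * t k * wE p0 (mixEC i k)) 11]
    refine Finset.sum_congr rfl fun i _ => ?_
    rw [← Fin.sum_univ_eq_sum_range (fun k => c i * t k * wE p0 (mixEC i k)) n]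
    refine Finset.sum_congr rfl fun k _ => ?_
    rw [W_mix, hci, htz]
  have h3 : ∑ k : Fin n, ∑ i : Fin 11, z (Sum.inr k) * z (Sum.inl i) *
      Wm p0 (T n) (Sum.inr k : Fin 11 ⊕ Fin n) (Sum.inl i : Fin 11 ⊕ Fin n) =
      ∑ i ∈ range 11, ∑ k ∈ range n, c i * t k * wE p0 (mixEC i k) := by
    rw [← h2, Finset.sum_comm]
    refine Finset.sum_congr rfl fun i _ => Finset.sum_congr rfl fun k _ => ?_
    rw [W_mix, W_mix']; ring
  have h4 : ∑ k : Fin n, ∑ l : Fin n, z (Sum.inr k) * z (Sum.inr l) *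
      Wm p0 (T n) (Sum.inr k : Fin 11 ⊕ Fin n) (Sum.inr l : Fin 11 ⊕ Fin n) =
      ∑ k ∈ range n, ∑ l ∈ range n, t k * t l *
      (if k = l then (0 : ℝ) else wE p0 (chainEC k l)) := by
    rw [← Fin.sum_univ_eq_sum_range (fun k => ∑ l ∈ range n, t k * t l *
      (if k = l then (0 : ℝ) else wE p0 (chainEC k l))) n]
    refine Finset.sum_congr rfl fun k _ => ?_
    rw [← Fin.sum_univ_eq_sum_range (fun l => t k * t l *
      (if (k : ℕ) = l then (0 : ℝ) else wE p0 (chainEC k l))) n]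
    refine Finset.sum_congr rfl fun l _ => ?_
    rw [W_chain, htz, htz]
  have hsum : c 0 + c 1 + c 2 + c 3 + c 4 + c 5 + c 6 + c 7 + c 8 + c 9 + c 10
      + ∑ k ∈ range n, t k = 1 := by
    rw [← hz, Fintype.sum_sum_type]
    congr 1
    · rw [Finset.sum_congr rfl (fun i _ => hci i), Fin.sum_univ_eq_sum_range (fun i => c i) 11]
      simp only [Finset.sum_range_succ, Finset.sum_range_zero, zero_add]
    · rw [← Fin.sum_univ_eq_sum_range (fun k => t k) n]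
      exact Finset.sum_congr rfl (fun k _ => htz k)
  have hsplit : form p0 (T n) z =
      (∑ i : Fin 11, ∑ j : Fin 11, z (Sum.inl i) * z (Sum.inl j) *
        Wm p0 (T n) (Sum.inl i : Fin 11 ⊕ Fin n) (Sum.inl j : Fin 11 ⊕ Fin n) +
      ∑ i : Fin 11, ∑ k : Fin n, z (Sum.inl i) * z (Sum.inr k) *
        Wm p0 (T n) (Sum.inl i : Fin 11 ⊕ Fin n) (Sum.inr k : Fin 11 ⊕ Fin n)) +
      (∑ k : Fin n, ∑ i : Fin 11, z (Sum.inr k) * z (Sum.inl i) *
        Wm p0 (T n) (Sum.inr k : Fin 11 ⊕ Fin n) (Sum.inl i : Fin 11 ⊕ Fin n) +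
      ∑ k : Fin n, ∑ l : Fin n, z (Sum.inr k) * z (Sum.inr l) *
        Wm p0 (T n) (Sum.inr k : Fin 11 ⊕ Fin n) (Sum.inr l : Fin 11 ⊕ Fin n)) := by
    rw [hform, Fintype.sum_sum_type, ← Finset.sum_add_distrib, ← Finset.sum_add_distrib]
    congr 1
    · exact Finset.sum_congr rfl fun i _ => Fintype.sum_sum_type _
    · exact Finset.sum_congr rfl fun i _ => Fintype.sum_sum_type _
  have hz0 : z (Sum.inl 0) = c 0 := hci 0
  rw [hsplit, h1, h2, h3, h4, core_sum, mix_sum n c t ht, chain_sum n t ht]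
  have hsq := chain_sq n t ht
  show _ = 1 - ((67/120 * (z (Sum.inl 0) + ∑ k ∈ range n, t k)^2 + c 1^2 + c 2^2 + c 3^2 + c 4^2
     + c 5^2 + c 6^2 + c 7^2 + c 8^2 + c 9^2 + c 10^2
     + 2 * (67/120) * ((z (Sum.inl 0) + ∑ k ∈ range n, t k) * c 1 + c 1 * c 2 + c 3 * c 4)
     + 2 * (53/120) * ((z (Sum.inl 0) + ∑ k ∈ range n, t k) * c 2
        + (z (Sum.inl 0) + ∑ k ∈ range n, t k) * c 3
        + (z (Sum.inl 0) + ∑ k ∈ range n, t k) * c 4
        + (z (Sum.inl 0) + ∑ k ∈ range n, t k) * c 5 + c 1 * c 3 + c 1 * c 5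
        + c 2 * c 5 + c 4 * c 5 + c 2 * c 6 + c 6 * c 7 + c 7 * c 8 + c 8 * c 9 + c 9 * c 10)
     + 2 * (14/120) * (c 2 - c 1) * t 0
     + (49/120) * t 0 ^2)
    + (49/120) * ∑ k ∈ Finset.range n, (t (k+1) - 2/7 * t k)^2)
  rw [hz0]
  generalize hSs : ∑ k ∈ range n, t k = s at *
  generalize hS2 : ∑ k ∈ range n, t k ^ 2 = s2 at *
  generalize hSc : ∑ k ∈ range n, t k * t (k+1) = sc at *
  generalize hSq : ∑ k ∈ range n, (t (k+1) - 2/7 * t k)^2 = sq at *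
  have hone : (1 : ℝ) = (c 0 + c 1 + c 2 + c 3 + c 4 + c 5 + c 6 + c 7 + c 8 + c 9 + c 10 + s)^2 := by
    rw [hsum]; norm_num
  rw [hone]
  linear_combination hsq

end Pool.Agent.H661R3.WT
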